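import Pool.Agent.TH464.PO.ApInst

set_option autoImplicit false

/-!
# Almost primes in arithmetic progressions, uniformly in the modulus: the density in all windows
around almost all integers

Let `m` be good if `q m + a` has at most `(D + 1) r` prime factors, all larger than `X ^ (1 / r)`.
Let `V` be the product of `1 - 1 / p` over the primes `p ≤ X ^ (1 / r)` not dividing `q`. The
modulus `q ≤ X ^ D` may be as large as any fixed power of the length of the progression, and the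
progression may start anywhere up to `X ^ (D + 1)`; `q = 1` is the case of short intervals. Given
`θ > 0` and `ε > 0` there are `C` and `r0` such that for every `r ≥ r0` and all large `X`,
uniformly in all `q ≤ X ^ D` and `a ≤ X ^ (D + 1)` prime to `q`, in ALL intervals `(Z, Z + Y]`
with `Z, Y ≥ X ^ θ`, `Z + Y ≤ 2 X`, for all but at most `ε Y` of the integers `n` of the interval
ALL windows `(u, v]` around `n` inside it of length at least `C / V` contain `(1 ± ε) (v - u) V`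
good integers.
-/

namespace Pool.Agent.Results.MP_293bbf_nt.ExactWindows

open Finset Filter

/-- `N` has at most `B` prime factors (with multiplicity), all of them larger than `z`. -/
def AlmostPrime (B : ℕ) (z : ℝ) (N : ℕ) : Prop :=
  N.primeFactorsList.length ≤ B ∧ ∀ p : ℕ, p.Prime → p ∣ N → z < (p : ℝ)

/-- `m` is good: `q m + a` has at most `(D + 1) r` prime factors, all larger than `X ^ (1 / r)`. -/
def Good (D r X q a m : ℕ) : Prop :=
  AlmostPrime ((D + 1) * r) ((X : ℝ) ^ (1 / (r : ℝ))) (q * m + a)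

/-- The sieve density of the progression: the product of `1 - 1 / p` over the primes `p ≤ X ^ (1 / r)`
not dividing `q`. -/
noncomputable def V (r X q : ℕ) : ℝ :=
  ∏ p ∈ (Finset.range (⌊(X : ℝ) ^ (1 / (r : ℝ))⌋₊ + 1)).filter (fun p => p.Prime ∧ ¬ p ∣ q),
    (1 - 1 / (p : ℝ))

open Classical in
/-- The number of the good `m` in `(u, v]`. -/
noncomputable def N (D r X q a : ℕ) (u v : ℕ) : ℕ :=
  ((Finset.Ioc u v).filter (fun m => Good D r X q a m)).card

/-- All windows around `n` inside `(Z, Z + Y]` of length at least `C / V` have the density `V` up to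
`ε`. -/
def AllWindows (D r X q a : ℕ) (C ε : ℝ) (Z Y n : ℕ) : Prop :=
  ∀ u v : ℕ, Z ≤ u → u < n → n ≤ v → v ≤ Z + Y → C ≤ ((v : ℝ) - u) * V r X q →
    |(N D r X q a u v : ℝ) - (v - u) * V r X q| ≤ ε * ((v - u) * V r X q)

open Pool.Agent.TH464.PO Pool.Agent.H373R2.T7 Pool.Agent.W123.RP

lemma fam (D : ℕ) (r : ℕ) (hr : 1 ≤ r) : ∀ᶠ X : ℕ in atTop, ∀ i : ℕ × ℕ,
    (1 ≤ i.1 ∧ i.1 ≤ X ^ D ∧ i.2 ≤ X ^ (D + 1) ∧ Nat.Coprime i.2 i.1) →
    ∃ u v : Fin 1 → ℤ, AF u v (X ^ D) ∧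
      (∀ m ≤ 3 * X, Sf (QL u v) ⌊(X : ℝ) ^ (1 / (r : ℝ))⌋₊ m ↔ Good D r X i.1 i.2 m) ∧
      Vq (QL u v) ⌊(X : ℝ) ^ (1 / (r : ℝ))⌋₊ = V r X i.1 := by
  filter_upwards [ap_fam D r hr] with X h i hi
  obtain ⟨h1, h2⟩ := h i.1 i.2 hi.1 hi.2.1 hi.2.2.1 hi.2.2.2
  exact ⟨_, _, h1, h2, V_ap i.1 i.2 hi.2.2.2 _⟩

open Classical in
/-- **The density in all windows around almost all integers.** -/
theorem result (D : ℕ) (θ : ℝ) (hθ : 0 < θ) (ε : ℝ) (hε : 0 < ε) :
    ∃ (C : ℝ) (r0 : ℕ), 0 < C ∧ ∀ r : ℕ, r0 ≤ r → ∀ᶠ X : ℕ in atTop, ∀ q a : ℕ, 1 ≤ q → q ≤ X ^ D →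
      a ≤ X ^ (D + 1) → Nat.Coprime a q →
      ∀ Z Y : ℕ, (X : ℝ) ^ θ ≤ Z → (X : ℝ) ^ θ ≤ Y → Z + Y ≤ 2 * X →
        (((Finset.Ioc Z (Z + Y)).filter (fun n => ¬ AllWindows D r X q a C ε Z Y n)).card : ℝ) ≤
          ε * Y := by
  obtain ⟨C, r0, hC, h⟩ := af_ex D (fun X (i : ℕ × ℕ) => 1 ≤ i.1 ∧ i.1 ≤ X ^ D ∧ i.2 ≤ X ^ (D + 1) ∧ Nat.Coprime i.2 i.1)
    (fun r X i m => Good D r X i.1 i.2 m) (fun r X i => V r X i.1) (fam D) θ hθ ε hε
  refine ⟨C, r0, hC, fun r hr => ?_⟩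
  filter_upwards [h r hr] with X hX q a hq hqX haX hco Z Y hXZ hXY hZY
  exact (hX (q, a) ⟨hq, hqX, haX, hco⟩ Z Y hXZ hXY hZY).1

end Pool.Agent.Results.MP_293bbf_nt.ExactWindows
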